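import Pool.Agent.Z15.H.Stm2

/-!
Divisors of functions on ruled surfaces.
-/

set_option autoImplicit false
set_option linter.all false

open FF MvPolynomial Pool.Agent.Z15.H.Stm

namespace Pool.Agent.Z15.H

section red

variable {k M ι : Type} [Field k] [Field M] [Algebra k M]

theorem red_const (v : Place k M) (c : k) : v.red (algebraMap k M c) = algebraMap k v.RF c := rfl

theorem exists_isRed [Fintype ι] (v : Place k M) {Q : ι → M} (hQ : Q ≠ 0) : ∃ R, IsRed v Q R := by
  classical
  have hne : (Finset.univ.filter fun i => Q i ≠ 0).Nonempty := by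
    by_contra h
    rw [Finset.not_nonempty_iff_eq_empty, Finset.filter_eq_empty_iff] at h
    apply hQ
    funext i
    have := h (Finset.mem_univ i)
    simpa using this
  obtain ⟨j, hj, hmin⟩ := Finset.exists_min_image _ (fun i => v.ord (Q i)) hne
  have hj0 : Q j ≠ 0 := (Finset.mem_filter.1 hj).2
  have hreg : ∀ i, v.Reg ((Q j)⁻¹ * Q i) := by
    intro i
    by_cases hi : Q i = 0
    · rw [hi, mul_zero]
      exact v.reg_zero
    · right
      rw [v.ord_mul (inv_ne_zero hj0) hi, v.ord_inv]
      have := hmin i (Finset.mem_filter.2 ⟨Finset.mem_univ i, hi⟩)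
      omega
  refine ⟨fun i => v.red ((Q j)⁻¹ * Q i), ?_, (Q j)⁻¹, inv_ne_zero hj0, fun i => ⟨hreg i, rfl⟩⟩
  intro h
  have h1 := congrFun h j
  simp only [Pi.zero_apply] at h1
  rw [inv_mul_cancel₀ hj0, v.red_one] at h1
  exact one_ne_zero h1

theorem IsRed.unique {v : Place k M} {Q : ι → M} {R R' : ι → v.RF} (h : IsRed v Q R)
    (h' : IsRed v Q R') : ∃ x : v.RF, x ≠ 0 ∧ R' = fun i => x * R i := by
  obtain ⟨hR, c, hc, h1⟩ := h
  obtain ⟨hR', c', hc', h1'⟩ := h'
  obtain ⟨j, hj⟩ : ∃ j, R j ≠ 0 := by
    by_contra hcon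
    push Not at hcon
    exact hR (funext hcon)
  rw [← (h1 j).2] at hj
  have hj0 : c * Q j ≠ 0 := by
    intro h0
    rw [h0, v.red_zero] at hj
    exact hj rfl
  have hj1 : v.ord (c * Q j) = 0 := by
    by_contra hcon
    apply hj
    rw [v.red_eq_zero_iff (h1 j).1]
    right
    have := (v.reg_iff hj0).1 (h1 j).1
    omega
  have hQj : Q j ≠ 0 := right_ne_zero_of_mul hj0
  have hx : v.Reg (c' / c) := by
    right
    have h2 : c' / c = (c' * Q j) / (c * Q j) := by
      field_simp
    have h3 : c' * Q j ≠ 0 := mul_ne_zero hc' hQj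
    rw [h2, v.ord_div h3 hj0, hj1]
    have := (v.reg_iff h3).1 (h1' j).1
    omega
  have heq : R' = fun i => v.red (c' / c) * R i := by
    funext i
    rw [← (h1 i).2, ← (h1' i).2, ← v.red_mul hx (h1 i).1]
    congr 1
    field_simp
  refine ⟨v.red (c' / c), ?_, heq⟩
  intro h0
  apply hR'
  rw [heq, h0]
  funext i
  rw [zero_mul]
  rfl

end red

section

variable {k : Type} [Field k] [IsAlgClosed k] [CharZero k] {ι E M : Type} [Fintype ι] [Field E]
  [Algebra k E] [IsFF k E] [Field M] [Algebra k M] [Algebra E M] [IsScalarTower k E M]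

theorem cyc_red (hC : T_CYC) {v : Place k M} {Q : ι → M} {R R' : ι → v.RF} (h : IsRed v Q R)
    (h' : IsRed v Q R') : cyc k R = cyc k R' := by
  obtain ⟨x, hx, rfl⟩ := h.unique h'
  exact ((hC k ι v.RF).1 R x hx).symm

theorem line_ne_zero (a b : ι → k) : line a b ≠ 0 := by
  unfold line
  rw [Ne, Finsupp.single_eq_zero]
  exact one_ne_zero

/-- Moebius transformations -/
theorem moebius {σ : M} (hσ : Transcendental E σ) (hadj : IntermediateField.adjoin E {σ} = ⊤)
    {p q r s : E} (h : p * s - q * r ≠ 0) :
    algebraMap E M s - algebraMap E M r * σ ≠ 0 ∧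
    algebraMap E M p * σ - algebraMap E M q ≠ 0 ∧
    Transcendental E ((algebraMap E M p * σ - algebraMap E M q) /
      (algebraMap E M s - algebraMap E M r * σ)) ∧
    IntermediateField.adjoin E {(algebraMap E M p * σ - algebraMap E M q) /
      (algebraMap E M s - algebraMap E M r * σ)} = ⊤ := by
  have hlin : ∀ u v : E, algebraMap E M u * σ + algebraMap E M v = 0 → u = 0 ∧ v = 0 := by
    intro u v huv
    have hu : u = 0 := by
      by_contra hu
      apply hσ
      refine ⟨Polynomial.C u * Polynomial.X + Polynomial.C v, ?_, ?_⟩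
      · intro h0
        have := congrArg (fun p => Polynomial.coeff p 1) h0
        simp [Polynomial.coeff_C] at this
        exact hu this
      · simpa using huv
    rw [hu, map_zero, zero_mul, zero_add] at huv
    exact ⟨hu, by simpa using huv⟩
  have h1 : algebraMap E M s - algebraMap E M r * σ ≠ 0 := by
    intro h0
    have := hlin (-r) s (by rw [map_neg, ← h0]; ring)
    apply h
    rw [this.2, neg_eq_zero.1 this.1]
    ring
  have h2 : algebraMap E M p * σ - algebraMap E M q ≠ 0 := by
    intro h0
    have := hlin p (-q) (by rw [map_neg, ← h0]; ring)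
    apply h
    rw [this.1, neg_eq_zero.1 this.2]
    ring
  obtain ⟨τ, hτ⟩ : ∃ τ, τ = (algebraMap E M p * σ - algebraMap E M q) /
      (algebraMap E M s - algebraMap E M r * σ) := ⟨_, rfl⟩
  rw [← hτ]
  have h3 : τ * (algebraMap E M s - algebraMap E M r * σ) = algebraMap E M p * σ - algebraMap E M q := by
    rw [hτ, div_mul_cancel₀ _ h1]
  -- σ is a Moebius function of τ
  have h4 : algebraMap E M p + algebraMap E M r * τ ≠ 0 := by
    intro h0
    have h5 : algebraMap E M (p * s - q * r) = 0 := by
      rw [map_sub, map_mul, map_mul]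
      linear_combination (algebraMap E M s - algebraMap E M r * σ) * h0 - algebraMap E M r * h3
    exact h ((map_eq_zero (algebraMap E M)).1 h5)
  have h5 : σ = (algebraMap E M q + algebraMap E M s * τ) / (algebraMap E M p + algebraMap E M r * τ) := by
    rw [eq_div_iff h4]
    linear_combination -h3
  have hmem : ∀ (L : IntermediateField E M), τ ∈ L → σ ∈ L := by
    intro L hL
    rw [h5]
    exact div_mem (add_mem (L.algebraMap_mem q) (mul_mem (L.algebraMap_mem s) hL))
      (add_mem (L.algebraMap_mem p) (mul_mem (L.algebraMap_mem r) hL))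
  refine ⟨h1, h2, ?_, ?_⟩
  · intro halg
    apply hσ
    have h6 : Algebra.IsAlgebraic E (IntermediateField.adjoin E {τ}) :=
      (IntermediateField.isAlgebraic_adjoin_simple halg.isIntegral)
    have h7 := hmem _ (IntermediateField.mem_adjoin_simple_self E τ)
    have h8 := h6.isAlgebraic ⟨σ, h7⟩
    exact h8.algebraMap
  · rw [eq_top_iff, ← hadj, IntermediateField.adjoin_simple_le_iff]
    exact hmem _ (IntermediateField.mem_adjoin_simple_self E τ)

theorem Over.red_const {v : Place k M} {t : Place k E} {e : ℕ} (h : Over v t e) {f : E} {c : k}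
    (h1 : t.Reg f) (h2 : t.red f = algebraMap k t.RF c) :
    v.Reg (algebraMap E M f) ∧ v.red (algebraMap E M f) = algebraMap k v.RF c := by
  refine ⟨h.reg.2 h1, ?_⟩
  rw [← h.resMap_red h1, h2, AlgHom.commutes]

/-- the place of the ruled surface given by the limit at `t` -/
theorem main_place (hC : T_CYC) (hG : T_GEX) (hU : T_GUN) {σ : M} (hσ : Transcendental E σ)
    (hadj : IntermediateField.adjoin E {σ} = ⊤) (A B : ι → E) {t : Place k E} {a b : ι → k}
    (hab : LinearIndependent k ![a, b]) {p q r s : E} (h : p * s - q * r ≠ 0)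
    (hA : ∀ i, t.Reg (p * A i + q * B i) ∧ t.red (p * A i + q * B i) = algebraMap k t.RF (a i))
    (hB : ∀ i, t.Reg (r * A i + s * B i) ∧ t.red (r * A i + s * B i) = algebraMap k t.RF (b i)) :
    ∃ v : Place k M, Over v t 1 ∧ IsFF k v.RF ∧
      v.Reg ((algebraMap E M p * σ - algebraMap E M q) /
        (algebraMap E M s - algebraMap E M r * σ)) ∧
      Transcendental k (v.red ((algebraMap E M p * σ - algebraMap E M q) /
        (algebraMap E M s - algebraMap E M r * σ))) ∧
      (∀ R : ι → v.RF, IsRed v (fun i => algebraMap E M (A i) + σ * algebraMap E M (B i)) R →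
        cyc k R = line a b) ∧
      ∀ (w : Place k M) (e : ℕ) (R : ι → w.RF), Over w t e → IsFF k w.RF →
        IsRed w (fun i => algebraMap E M (A i) + σ * algebraMap E M (B i)) R → cyc k R ≠ 0 →
        w = v := by
  obtain ⟨h1, h2, h3, h4⟩ := moebius hσ hadj h
  obtain ⟨τ, hτ⟩ : ∃ τ, τ = (algebraMap E M p * σ - algebraMap E M q) /
      (algebraMap E M s - algebraMap E M r * σ) := ⟨_, rfl⟩
  rw [← hτ] at h3 h4
  rw [← hτ]
  have hτ0 : τ ≠ 0 := by
    intro h0
    apply h3
    rw [h0]
    exact isAlgebraic_zero
  have h5 : algebraMap E M (p * s - q * r) ≠ 0 := (map_ne_zero (algebraMap E M)).2 h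
  have h3' : τ * (algebraMap E M s - algebraMap E M r * σ) =
      algebraMap E M p * σ - algebraMap E M q := by
    rw [hτ, div_mul_cancel₀ _ h1]
  have key : ∀ i, algebraMap E M (p * s - q * r) / (algebraMap E M s - algebraMap E M r * σ) *
      (algebraMap E M (A i) + σ * algebraMap E M (B i)) =
      algebraMap E M (p * A i + q * B i) + τ * algebraMap E M (r * A i + s * B i) := by
    intro i
    rw [div_mul_eq_mul_div, div_eq_iff h1]
    simp only [map_sub, map_add, map_mul]
    linear_combination -(algebraMap E M r * algebraMap E M (A i) +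
      algebraMap E M s * algebraMap E M (B i)) * h3'
  have keyi : ∀ i, (algebraMap E M (p * s - q * r) / (algebraMap E M s - algebraMap E M r * σ) / τ) *
      (algebraMap E M (A i) + σ * algebraMap E M (B i)) =
      τ⁻¹ * algebraMap E M (p * A i + q * B i) + algebraMap E M (r * A i + s * B i) := by
    intro i
    have := key i
    rw [div_mul_eq_mul_div, this, div_eq_iff hτ0]
    field_simp
  -- nondegeneracy
  have hnd : ∀ (K : Type) [Field K] [Algebra k K] (x : K),
      (fun i => algebraMap k K (a i) + x * algebraMap k K (b i)) ≠ 0 := by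
    intro K _ _ x h0
    rw [LinearIndependent.pair_iff] at hab
    have h6 : ∀ i, algebraMap k K (a i) + x * algebraMap k K (b i) = 0 := fun i => congrFun h0 i
    obtain ⟨j, hj⟩ : ∃ j, b j ≠ 0 := by
      by_contra hcon
      push Not at hcon
      have := hab 0 1 (by funext i; simp [hcon i])
      exact one_ne_zero this.2
    have hbj : algebraMap k K (b j) ≠ 0 := by simpa using hj
    have hx : x = algebraMap k K (-(a j) / b j) := by
      rw [map_div₀, map_neg, eq_div_iff hbj]
      linear_combination h6 j
    have := hab 1 (-(a j) / b j) (by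
      funext i
      have h7 := h6 i
      rw [hx, ← map_mul, ← map_add] at h7
      have h8 : a i + -(a j) / b j * b i = 0 := (map_eq_zero (algebraMap k K)).1 h7
      simpa using h8)
    exact one_ne_zero this.1
  -- reductions
  have hred : ∀ (w : Place k M) (e : ℕ), Over w t e → w.Reg τ →
      IsRed w (fun i => algebraMap E M (A i) + σ * algebraMap E M (B i))
        (fun i => algebraMap k w.RF (a i) + w.red τ * algebraMap k w.RF (b i)) := by
    intro w e hw hr
    refine ⟨hnd _ _, algebraMap E M (p * s - q * r) / (algebraMap E M s - algebraMap E M r * σ),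
      div_ne_zero h5 h1, fun i => ?_⟩
    obtain ⟨h6, h7⟩ := Over.red_const hw (hA i).1 (hA i).2
    obtain ⟨h8, h9⟩ := Over.red_const hw (hB i).1 (hB i).2
    rw [key i]
    refine ⟨w.reg_add h6 (w.reg_mul hr h8), ?_⟩
    rw [w.red_add h6 (w.reg_mul hr h8), w.red_mul hr h8, h7, h9]
  obtain ⟨v, hv, hvr, hvt⟩ := hG k E M τ h3 h4 t
  obtain ⟨hu, hvadj⟩ := hU k E M τ h3 h4 t v 1 hv hvr hvt
  have hFF : IsFF k v.RF := by
    refine IsFF.of_finite hvt ?_
    rw [hvadj]
    exact Module.Finite.of_surjective (Algebra.linearMap (⊤ : IntermediateField k v.RF) v.RF)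
      fun x => ⟨⟨x, trivial⟩, rfl⟩
  refine ⟨v, hv, hFF, hvr, hvt, ?_, ?_⟩
  · intro R hR
    rw [cyc_red hC hR (hred v 1 hv hvr)]
    exact (hC k ι v.RF).2.2.2.2 (v.red τ) hvt hvadj a b hab
  · intro w e R hw hwF hR hne
    have hconst : ∀ c : ι → k, IsRed w (fun i => algebraMap E M (A i) + σ * algebraMap E M (B i))
        (fun i => algebraMap k w.RF (c i)) → False := by
      intro c hc
      apply hne
      rw [cyc_red hC hR hc]
      exact (hC k ι w.RF).2.2.2.1 hwF c
    by_cases hr : w.Reg τ
    · by_cases htr : Transcendental k (w.red τ)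
      · exact hu w e hw hr htr
      · exfalso
        have halg : IsAlgebraic k (w.red τ) := by
          unfold Transcendental at htr
          exact not_not.1 htr
        obtain ⟨x, hx⟩ := minpoly.mem_range_of_degree_eq_one k (w.red τ)
          (IsAlgClosed.degree_eq_one_of_irreducible k (minpoly.irreducible halg.isIntegral))
        refine hconst (fun i => a i + x * b i) ?_
        have h6 := hred w e hw hr
        rw [← hx] at h6
        convert h6 using 2
        rw [map_add, map_mul]
    · exfalso
      have hlt : w.ord τ < 0 := by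
        by_contra hcon
        exact hr (Or.inr (not_lt.1 hcon))
      have hir : w.Reg τ⁻¹ := by
        right
        rw [w.ord_inv]
        omega
      have hi0 : w.red τ⁻¹ = 0 := by
        rw [w.red_eq_zero_iff hir]
        right
        rw [w.ord_inv]
        omega
      refine hconst b ⟨?_, algebraMap E M (p * s - q * r) /
        (algebraMap E M s - algebraMap E M r * σ) / τ, div_ne_zero (div_ne_zero h5 h1) hτ0,
        fun i => ?_⟩
      · intro h0
        rw [LinearIndependent.pair_iff] at hab
        have h6 : ∀ i, b i = 0 := fun i => by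
          have := congrFun h0 i
          simpa using this
        have := hab 0 1 (by funext i; simp [h6 i])
        exact one_ne_zero this.2
      · obtain ⟨h6, h7⟩ := Over.red_const hw (hA i).1 (hA i).2
        obtain ⟨h8, h9⟩ := Over.red_const hw (hB i).1 (hB i).2
        rw [keyi i]
        refine ⟨w.reg_add (w.reg_mul hir h6) h8, ?_⟩
        rw [w.red_add (w.reg_mul hir h6) h8, w.red_mul hir h6, hi0, zero_mul, zero_add, h9]

end

end Pool.Agent.Z15.H
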