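import Pool.Agent.Z15.H.D1

/-!
Divisors of functions on ruled surfaces, second part.
-/

set_option autoImplicit false
set_option linter.all false

open FF MvPolynomial Pool.Agent.Z15.H.Stm

namespace Pool.Agent.Z15.H

/-- a purely transcendental extension -/
theorem exists_ruled (k E : Type) [Field k] [Field E] [Algebra k E] :
    ∃ (M : Type) (_ : Field M) (_ : Algebra k M) (_ : Algebra E M) (_ : IsScalarTower k E M) (σ : M),
      Transcendental E σ ∧ IntermediateField.adjoin E {σ} = ⊤ := by
  exact ⟨RatFunc E, inferInstance, inferInstance, inferInstance, inferInstance, RatFunc.X,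
    RatFunc.transcendental_X, RatFunc.adjoin_X⟩

section

variable {k : Type} [Field k] [IsAlgClosed k] [CharZero k] {ι E M : Type} [Fintype ι] [Field E]
  [Algebra k E] [IsFF k E] [Field M] [Algebra k M] [Algebra E M] [IsScalarTower k E M]

theorem ruled_ne_zero {σ : M} (hσ : Transcendental E σ) {A B : ι → E} (hB : B ≠ 0) :
    (fun i => algebraMap E M (A i) + σ * algebraMap E M (B i)) ≠ 0 := by
  intro h
  obtain ⟨j, hj⟩ : ∃ j, B j ≠ 0 := by
    by_contra hcon
    push Not at hcon
    exact hB (funext hcon)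
  have h1 := congrFun h j
  simp only [Pi.zero_apply] at h1
  have h2 : algebraMap E M (B j) ≠ 0 := (map_ne_zero (algebraMap E M)).2 hj
  have h3 : σ = algebraMap E M (-(A j) / B j) := by
    rw [map_div₀, map_neg, eq_div_iff h2]
    linear_combination h1
  apply hσ
  rw [h3]
  exact isAlgebraic_algebraMap _

theorem Over.inj {v : Place k M} {t t' : Place k E} {e e' : ℕ} (h : Over v t e)
    (h' : Over v t' e') : t = t' := by
  apply Place.eq_of_le
  intro f hf h1
  have h2 := h.2 f
  rw [h'.2 f] at h2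
  have h3 : (0 : ℤ) < e := by exact_mod_cast h.1
  have h4 : (0 : ℤ) < e' := by exact_mod_cast h'.1
  by_contra hcon
  push Not at hcon
  have h5 : (e' : ℤ) * t'.ord f < 0 := mul_neg_of_pos_of_neg h4 hcon
  have h6 : 0 ≤ (e : ℤ) * t.ord f := mul_nonneg h3.le h1
  omega

end

theorem t_DE (hC : T_CYC) (hG : T_GEX) (hU : T_GUN) (hS : T_SURF) : T_DE := by
  intro k _ _ _ ι E _ _ _ _ F A B hAB hV h S a b hh hS' hlim
  classical
  obtain ⟨M, _, _, _, _, σ, hσ, hadj⟩ := exists_ruled k E
  have hB : B ≠ 0 := by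
    rintro rfl
    rw [LinearIndependent.pair_iff] at hAB
    exact one_ne_zero (hAB 0 1 (by simp)).2
  have hQ := ruled_ne_zero (M := M) hσ (A := A) hB
  obtain ⟨Q, hQd⟩ : ∃ Q : ι → M, Q = fun i => algebraMap E M (A i) + σ * algebraMap E M (B i) :=
    ⟨_, rfl⟩
  rw [← hQd] at hQ
  have hex : ∀ t : Place k E, ∃ v : Place k M, Over v t 1 ∧ IsFF k v.RF ∧
      (∀ R : ι → v.RF, IsRed v Q R → cyc k R = line (a t) (b t)) ∧
      ∀ (w : Place k M) (e : ℕ) (R : ι → w.RF), Over w t e → IsFF k w.RF →
        IsRed w Q R → cyc k R ≠ 0 → w = v := by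
    intro t
    obtain ⟨h1, p, q, r, s, h2, h3, h4⟩ := hlim t
    obtain ⟨v, h5, h6, -, -, h7, h8⟩ := main_place hC hG hU hσ hadj A B h1 h2 h3 h4
    rw [← hQd] at h7 h8
    exact ⟨v, h5, h6, h7, h8⟩
  choose V hV1 hV2 hV3 hV4 using hex
  have hR : ∀ v : Place k M, ∃ R, IsRed v Q R := fun v => exists_isRed v hQ
  choose R hR using hR
  have hh' : algebraMap E M h ≠ 0 := (map_ne_zero (algebraMap E M)).2 hh
  have hord : ∀ t, (V t).ord (algebraMap E M h) = t.ord h := by
    intro t
    rw [(hV1 t).2 h]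
    simp
  refine AddSubgroup.subset_closure ⟨M, inferInstance, inferInstance, Q, algebraMap E M h,
    hS k E M σ hσ hadj, hQ, ?_, hh', S.image V, R, hR, ?_, ?_⟩
  · rw [hQd]
    exact hV M σ
  · intro v
    constructor
    · intro hv
      obtain ⟨t, ht, rfl⟩ := Finset.mem_image.1 hv
      refine ⟨hV2 t, ?_, ?_⟩
      · rw [hord]
        exact (hS' t).1 ht
      · rw [hV3 t _ (hR _)]
        exact line_ne_zero _ _
    · rintro ⟨h1, h2, h3⟩
      obtain ⟨e, t, ht⟩ := exists_over (K := E) v ⟨h, h2⟩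
      have h4 := hV4 t v e (R v) ht h1 (hR v) h3
      refine Finset.mem_image.2 ⟨t, ?_, h4.symm⟩
      rw [hS']
      intro h5
      apply h2
      rw [ht.2 h, h5, mul_zero]
  · rw [Finset.sum_image]
    · refine Finset.sum_congr rfl fun t _ => ?_
      rw [hord, hV3 t _ (hR _)]
    · intro t _ t' _ htt
      have h1 := hV1 t
      rw [htt] at h1
      exact Over.inj h1 (hV1 t')

/-- `E → RF` for places which are trivial on `E` -/
noncomputable def trivHom {k E M : Type} [Field k] [Field E] [Algebra k E] [Field M] [Algebra k M]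
    [Algebra E M] [IsScalarTower k E M] (v : Place k M)
    (h : ∀ x : E, x ≠ 0 → v.ord (algebraMap E M x) = 0) : E →ₐ[k] v.RF where
  toFun x := v.red (algebraMap E M x)
  map_one' := by rw [map_one, v.red_one]
  map_zero' := by rw [map_zero, v.red_zero]
  map_mul' x y := by
    have hr : ∀ x : E, v.Reg (algebraMap E M x) := fun x => by
      by_cases hx : x = 0
      · rw [hx, map_zero]
        exact v.reg_zero
      · exact Or.inr (h x hx).ge
    rw [map_mul, v.red_mul (hr x) (hr y)]
  map_add' x y := by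
    have hr : ∀ x : E, v.Reg (algebraMap E M x) := fun x => by
      by_cases hx : x = 0
      · rw [hx, map_zero]
        exact v.reg_zero
      · exact Or.inr (h x hx).ge
    rw [map_add, v.red_add (hr x) (hr y)]
  commutes' c := by
    rw [← IsScalarTower.algebraMap_apply]
    rfl

theorem isFF_of_surj {k E E' : Type} [Field k] [Field E] [Algebra k E] [Field E'] [Algebra k E']
    [h : IsFF k E] (φ : E →ₐ[k] E') (hφ : Function.Surjective φ) : IsFF k E' := by
  have e : E ≃ₐ[k] E' := AlgEquiv.ofBijective φ ⟨φ.toRingHom.injective, hφ⟩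
  constructor
  · have := h.ess
    exact Algebra.EssFiniteType.of_surjective φ hφ
  · have h1 := h.trdeg
    rw [← h1]
    exact (e.trdeg_eq).symm

theorem t_DX (hC : T_CYC) (hG : T_GEX) (hU : T_GUN) (hS : T_SURF) (hT : T_TRIV) (hL : T_LOC) :
    T_DX := by
  intro k _ _ _ ι E _ _ _ _ F A B hAB hV
  classical
  obtain ⟨M, _, _, _, _, σ, hσ, hadj⟩ := exists_ruled k E
  have hB : B ≠ 0 := by
    rintro rfl
    rw [LinearIndependent.pair_iff] at hAB
    exact one_ne_zero (hAB 0 1 (by simp)).2
  have hA : A ≠ 0 := by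
    rintro rfl
    rw [LinearIndependent.pair_iff] at hAB
    exact one_ne_zero (hAB 1 0 (by simp)).1
  have hQ := ruled_ne_zero (M := M) hσ (A := A) hB
  obtain ⟨Q, hQd⟩ : ∃ Q : ι → M, Q = fun i => algebraMap E M (A i) + σ * algebraMap E M (B i) :=
    ⟨_, rfl⟩
  rw [← hQd] at hQ
  obtain ⟨hL1, ⟨S0, hL2⟩, -⟩ := hL k ι E A B hAB
  choose a b hlim using hL1
  have hσ0 : σ ≠ 0 := by
    rintro rfl
    exact hσ isAlgebraic_zero
  have hex : ∀ t : Place k E, ∃ v : Place k M, Over v t 1 ∧ IsFF k v.RF ∧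
      (∀ R : ι → v.RF, IsRed v Q R → cyc k R = line (a t) (b t)) ∧
      ∀ (w : Place k M) (e : ℕ) (R : ι → w.RF), Over w t e → IsFF k w.RF →
        IsRed w Q R → cyc k R ≠ 0 → w = v := by
    intro t
    obtain ⟨h1, p, q, r, s, h2, h3, h4⟩ := hlim t
    obtain ⟨v, h5, h6, -, -, h7, h8⟩ := main_place hC hG hU hσ hadj A B h1 h2 h3 h4
    rw [← hQd] at h7 h8
    exact ⟨v, h5, h6, h7, h8⟩
  choose V hV1 hV2 hV3 hV4 using hex
  have hR : ∀ v : Place k M, ∃ R, IsRed v Q R := fun v => exists_isRed v hQ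
  choose R hR using hR
  -- almost all places
  have hfin : ∀ t ∉ S0, (V t).ord σ = 0 := by
    intro t ht
    obtain ⟨a', b', h1, h2, h3⟩ := hL2 t ht
    obtain ⟨v, h5, h6, h7, h8, h9, h10⟩ := main_place hC hG hU hσ hadj A B (t := t) (a := a')
      (b := b') h1 (p := 1) (q := 0) (r := 0) (s := 1) (by simp)
      (fun i => by simpa using h2 i) (fun i => by simpa using h3 i)
    rw [← hQd] at h9 h10
    simp only [map_one, map_zero, one_mul, zero_mul, sub_zero, div_one] at h7 h8
    have hv : V t = v := h10 (V t) 1 (R (V t)) (hV1 t) (hV2 t) (hR _) (by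
      rw [hV3 t _ (hR _)]
      exact line_ne_zero _ _)
    rw [hv]
    by_contra hcon
    apply h8
    have h11 : v.red σ = 0 := by
      rw [v.red_eq_zero_iff h7]
      right
      have := (v.reg_iff hσ0).1 h7
      omega
    rw [h11]
    exact isAlgebraic_zero
  let S := S0.filter fun t => (V t).ord σ ≠ 0
  have hSm : ∀ t, t ∈ S ↔ (V t).ord σ ≠ 0 := by
    intro t
    simp only [S, Finset.mem_filter]
    constructor
    · exact fun h => h.2
    · intro h
      refine ⟨?_, h⟩
      by_contra hcon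
      exact h (hfin t hcon)
  -- the two sections
  obtain ⟨v0, hv1, hv2, hv3, hv4⟩ := hT k E M σ hσ hadj
  have hσi : Transcendental E σ⁻¹ := by
    intro h
    apply hσ
    rw [← inv_inv σ]
    exact h.inv
  have hadji : IntermediateField.adjoin E {σ⁻¹} = ⊤ := by
    rw [eq_top_iff, ← hadj, IntermediateField.adjoin_simple_le_iff]
    have := (IntermediateField.adjoin E {σ⁻¹}).inv_mem
      (IntermediateField.mem_adjoin_simple_self E σ⁻¹)
    rwa [inv_inv] at this
  obtain ⟨v1, hw1, hw2, hw3, hw4⟩ := hT k E M σ⁻¹ hσi hadji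
  rw [v1.ord_inv] at hw2
  have hreg0 : ∀ x : E, v0.Reg (algebraMap E M x) := fun x => by
    by_cases hx : x = 0
    · rw [hx, map_zero]
      exact v0.reg_zero
    · exact Or.inr (hv1 x hx).ge
  have hreg1 : ∀ x : E, v1.Reg (algebraMap E M x) := fun x => by
    by_cases hx : x = 0
    · rw [hx, map_zero]
      exact v1.reg_zero
    · exact Or.inr (hw1 x hx).ge
  have hc0 : cyc k (R v0) = cyc k A := by
    have h1 : IsRed v0 Q (fun i => trivHom v0 hv1 (A i)) := by
      refine ⟨?_, 1, one_ne_zero, fun i => ?_⟩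
      · intro h
        apply hA
        funext i
        have := congrFun h i
        simpa using this
      · have hσr : v0.Reg σ := Or.inr (by omega)
        have hσ1 : v0.red σ = 0 := by
          rw [v0.red_eq_zero_iff hσr]
          right
          omega
        rw [one_mul, hQd]
        refine ⟨v0.reg_add (hreg0 _) (v0.reg_mul hσr (hreg0 _)), ?_⟩
        simp only
        rw [v0.red_add (hreg0 _) (v0.reg_mul hσr (hreg0 _)), v0.red_mul hσr (hreg0 _), hσ1,
          zero_mul, add_zero]
        rfl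
    rw [cyc_red hC (hR v0) h1]
    exact (hC k ι E).2.1 v0.RF (trivHom v0 hv1) hv3 A
  have hc1 : cyc k (R v1) = cyc k B := by
    have h1 : IsRed v1 Q (fun i => trivHom v1 hw1 (B i)) := by
      refine ⟨?_, σ⁻¹, inv_ne_zero hσ0, fun i => ?_⟩
      · intro h
        apply hB
        funext i
        have := congrFun h i
        simpa using this
      · have hσr : v1.Reg σ⁻¹ := Or.inr (by rw [v1.ord_inv]; omega)
        have hσ1 : v1.red σ⁻¹ = 0 := by
          rw [v1.red_eq_zero_iff hσr]
          right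
          rw [v1.ord_inv]
          omega
        have h2 : σ⁻¹ * Q i = σ⁻¹ * algebraMap E M (A i) + algebraMap E M (B i) := by
          rw [hQd]
          field_simp
        rw [h2]
        refine ⟨v1.reg_add (v1.reg_mul hσr (hreg1 _)) (hreg1 _), ?_⟩
        rw [v1.red_add (v1.reg_mul hσr (hreg1 _)) (hreg1 _), v1.red_mul hσr (hreg1 _), hσ1,
          zero_mul, zero_add]
        rfl
    rw [cyc_red hC (hR v1) h1]
    exact (hC k ι E).2.1 v1.RF (trivHom v1 hw1) hw3 B
  have hF0 : IsFF k v0.RF := isFF_of_surj (trivHom v0 hv1) hv3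
  have hF1 : IsFF k v1.RF := isFF_of_surj (trivHom v1 hw1) hw3
  have h01 : v0 ≠ v1 := by
    intro h
    rw [h] at hv2
    omega
  have hnt : ∀ (t : Place k E) (v : Place k M), (∀ x : E, x ≠ 0 → v.ord (algebraMap E M x) = 0) →
      v ≠ V t := by
    rintro t v hv rfl
    obtain ⟨x, hx, hx1⟩ := t.surj
    have := hv x hx
    rw [(hV1 t).2 x, hx1] at this
    simp at this
  let T0 : Finset (Place k M) := insert v0 (insert v1 (S.image V))
  refine ⟨S, fun t => (V t).ord σ, a, b, hlim, ?_⟩
  refine AddSubgroup.subset_closure ⟨M, inferInstance, inferInstance, Q, σ,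
    hS k E M σ hσ hadj, hQ, ?_, hσ0, T0.filter (fun v => cyc k (R v) ≠ 0), R, hR, ?_, ?_⟩
  · rw [hQd]
    exact hV M σ
  · intro v
    simp only [T0, Finset.mem_filter, Finset.mem_insert, Finset.mem_image]
    constructor
    · rintro ⟨rfl | rfl | ⟨t, ht, rfl⟩, h2⟩
      · exact ⟨hF0, by omega, h2⟩
      · exact ⟨hF1, by omega, h2⟩
      · exact ⟨hV2 t, (hSm t).1 ht, h2⟩
    · rintro ⟨h1, h2, h3⟩
      refine ⟨?_, h3⟩
      by_cases htr : ∃ f : E, v.ord (algebraMap E M f) ≠ 0
      · obtain ⟨e, t, ht⟩ := exists_over (K := E) v htr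
        have h4 := hV4 t v e (R v) ht h1 (hR v) h3
        refine Or.inr (Or.inr ⟨t, ?_, h4.symm⟩)
        rw [hSm, ← h4]
        exact h2
      · push Not at htr
        rcases lt_or_gt_of_ne h2 with h4 | h4
        · right
          left
          exact hw4 v (fun x _ => htr x) (by rw [v.ord_inv]; omega)
        · left
          exact hv4 v (fun x _ => htr x) h4
  · have h1 : ∑ v ∈ T0.filter (fun v => cyc k (R v) ≠ 0), v.ord σ • cyc k (R v) =
        ∑ v ∈ T0, v.ord σ • cyc k (R v) := by
      rw [Finset.sum_filter]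
      refine Finset.sum_congr rfl fun v _ => ?_
      by_cases h2 : cyc k (R v) = 0
      · simp [h2]
      · simp [h2]
    rw [h1]
    simp only [T0]
    rw [Finset.sum_insert, Finset.sum_insert, hc0, hc1, Finset.sum_image, hv2]
    · have h2 : v1.ord σ = -1 := by omega
      rw [h2, one_smul, neg_smul, one_smul]
      have h3 : ∑ t ∈ S, (V t).ord σ • cyc k (R (V t)) =
          ∑ t ∈ S, (V t).ord σ • line (a t) (b t) :=
        Finset.sum_congr rfl fun t _ => by rw [hV3 t _ (hR _)]
      rw [h3]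
      abel
    · intro t _ t' _ htt
      have h1 := hV1 t
      rw [htt] at h1
      exact Over.inj h1 (hV1 t')
    · intro h
      obtain ⟨t, -, h2⟩ := Finset.mem_image.1 h
      exact hnt t v1 hw1 h2.symm
    · intro h
      rcases Finset.mem_insert.1 h with h | h
      · exact h01 h
      · obtain ⟨t, -, h2⟩ := Finset.mem_image.1 h
        exact hnt t v0 hv1 h2.symm

end Pool.Agent.Z15.H
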