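import Pool.Agent.Helper386.D5V.Helper399_FF4a
import Pool.Agent.Helper386.D5V.Helper386_FF_Riemann

/-!
One-dimensional cycles on subvarieties of projective space, in terms of function fields.
-/

set_option autoImplicit false

open FF MvPolynomial

namespace Pool.Agent.Z15.H

section

variable (k : Type) [Field k] {ι E : Type} [Field E] [Algebra k E]

/-- The homogeneous prime ideal of the point of projective space with homogeneous coordinates `P`:
the polynomials all of whose homogeneous components vanish at `P`. It determines the Zariski closure
of the point. -/
def locus (P : ι → E) : Set (MvPolynomial ι k) :=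
  {G | ∀ n, aeval P (homogeneousComponent n G) = 0}

/-- The residue field of the point with homogeneous coordinates `P`. -/
def ratioField (P : ι → E) : IntermediateField k E :=
  IntermediateField.adjoin k {z | ∃ i j, z = P i / P j}

/-- Let `E` be the function field of a curve. The map from this curve to projective space with
homogeneous coordinates `P` gives the one-dimensional cycle `[E : k(P)] P`, where `P` is the closure
of the image of the curve (`0` if the map is constant, since then `E` is infinite over `k(P)`). The
one-dimensional cycles are sums of curves, given by their ideals. -/
noncomputable def cyc (P : ι → E) : Set (MvPolynomial ι k) →₀ ℤ :=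
  Finsupp.single (locus k P) (Module.finrank (ratioField k P) E)

/-- `M` is the function field of a surface over `k`: it is finitely generated, of transcendence degree
two. -/
def IsSurf (M : Type) [Field M] [Algebra k M] : Prop :=
  Algebra.EssFiniteType k M ∧ Algebra.trdeg k M = 2

end

section

variable {k : Type} [Field k] {ι : Type}

/-- `R` are homogeneous coordinates of the reduction at the place `v` of the point with homogeneous
coordinates `Q`. -/
def IsRed {M : Type} [Field M] [Algebra k M] (v : Place k M) (Q : ι → M) (R : ι → v.RF) : Prop :=
  R ≠ 0 ∧ ∃ c : M, c ≠ 0 ∧ ∀ i, v.Reg (c * Q i) ∧ v.red (c * Q i) = R i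

/-- `D` is the push-forward of the divisor of the function `h ≠ 0` on the surface with the function
field `M` under the rational map to projective space with homogeneous coordinates `Q` (more
precisely, on a normal projective model of the surface on which the map is defined): the sum of the
`v.ord h • [R v]`, where `v` are the discrete valuations of `M` whose residue fields are function
fields of one variable over `k`, and `R v` is the reduction of `Q` at `v`. There are only finitely
many `v` such that `v.ord h` and `[R v]` are not zero. -/
def IsDivisor {M : Type} [Field M] [Algebra k M] (Q : ι → M) (h : M)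
    (D : Set (MvPolynomial ι k) →₀ ℤ) : Prop :=
  ∃ (T : Finset (Place k M)) (R : ∀ v : Place k M, ι → v.RF), (∀ v, IsRed v Q (R v)) ∧
    (∀ v, v ∈ T ↔ IsFF k v.RF ∧ v.ord h ≠ 0 ∧ cyc k (R v) ≠ 0) ∧
    D = ∑ v ∈ T, v.ord h • cyc k (R v)

/-- The one-dimensional cycles on the projective hypersurface `F = 0` which are rationally
equivalent to zero: the group generated by the push-forwards of the divisors of rational functions on
surfaces which map to the hypersurface. -/
noncomputable def Rat (F : MvPolynomial ι k) : AddSubgroup (Set (MvPolynomial ι k) →₀ ℤ) :=
  AddSubgroup.closure {D | ∃ (M : Type) (_ : Field M) (_ : Algebra k M) (Q : ι → M) (h : M),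
    IsSurf k M ∧ Q ≠ 0 ∧ aeval Q F = 0 ∧ h ≠ 0 ∧ IsDivisor Q h D}

end

end Pool.Agent.Z15.H
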