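import Pool.Agent.Z15.H.Defs

/-!
Auxiliary definitions: lines, limits of families of lines.
-/

set_option autoImplicit false

open FF MvPolynomial

namespace Pool.Agent.Z15.H

variable {k : Type} [Field k] {ι : Type}

/-- the line through two points of projective space over `k` -/
noncomputable def line (a b : ι → k) : Set (MvPolynomial ι k) →₀ ℤ :=
  Finsupp.single {G | ∀ n, ∀ α β : k, eval (fun i => α * a i + β * b i) (homogeneousComponent n G) = 0} 1

/-- `a`, `b` is a basis of the limit at `t` of the line through `A` and `B` -/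
def IsLim {E : Type} [Field E] [Algebra k E] (t : Place k E) (A B : ι → E) (a b : ι → k) : Prop :=
  LinearIndependent k ![a, b] ∧ ∃ p q r s : E, p * s - q * r ≠ 0 ∧
    (∀ i, t.Reg (p * A i + q * B i) ∧ t.red (p * A i + q * B i) = algebraMap k t.RF (a i)) ∧
    ∀ i, t.Reg (r * A i + s * B i) ∧ t.red (r * A i + s * B i) = algebraMap k t.RF (b i)

/-- cycles which are rationally equivalent to zero up to torsion -/
def Tor (F : MvPolynomial ι k) : AddSubgroup (Set (MvPolynomial ι k) →₀ ℤ) where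
  carrier := {c | ∃ N : ℕ, 0 < N ∧ N • c ∈ Rat F}
  zero_mem' := ⟨1, one_pos, by rw [smul_zero]; exact zero_mem _⟩
  add_mem' := by
    rintro x y ⟨N, hN, hx⟩ ⟨N', hN', hy⟩
    refine ⟨N * N', Nat.mul_pos hN hN', ?_⟩
    rw [smul_add]
    refine add_mem ?_ ?_
    · rw [mul_comm, mul_smul]
      exact nsmul_mem hx _
    · rw [mul_smul]
      exact nsmul_mem hy _
  neg_mem' := by
    rintro x ⟨N, hN, hx⟩
    exact ⟨N, hN, by rw [smul_neg]; exact neg_mem hx⟩

theorem Tor.of_nsmul {F : MvPolynomial ι k} {c : Set (MvPolynomial ι k) →₀ ℤ} {N : ℕ} (hN : 0 < N)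
    (h : N • c ∈ Tor F) : c ∈ Tor F := by
  obtain ⟨M, hM, h1⟩ := h
  refine ⟨M * N, Nat.mul_pos hM hN, ?_⟩
  rw [mul_smul]
  exact h1

theorem Tor.of_rat {F : MvPolynomial ι k} {c : Set (MvPolynomial ι k) →₀ ℤ} (h : c ∈ Rat F) :
    c ∈ Tor F := ⟨1, one_pos, by rwa [one_smul]⟩

end Pool.Agent.Z15.H
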