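import Pool.Agent.Z15.H.Stm

/-!
Statements of lemmas (tasks of helper15), second part.
-/

set_option autoImplicit false

open FF MvPolynomial

namespace Pool.Agent.Z15.H.Stm

/-- `F` vanishes on the line through `A` and `B` -/
def Vanish {k : Type} [Field k] {ι : Type} (F : MvPolynomial ι k) {E : Type} [Field E] [Algebra k E]
    (A B : ι → E) : Prop :=
  ∀ (M : Type) [Field M] [Algebra k M] [Algebra E M] [IsScalarTower k E M] (s : M),
    aeval (fun i => algebraMap E M (A i) + s * algebraMap E M (B i)) F = 0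

/-! ### DE, DX: divisors of functions on the ruled surface (helper15 does these) -/

def T_DE : Prop :=
  ∀ (k : Type) [Field k] [IsAlgClosed k] [CharZero k] (ι E : Type) [Fintype ι] [Field E] [Algebra k E]
    [IsFF k E] (F : MvPolynomial ι k) (A B : ι → E), LinearIndependent E ![A, B] → Vanish F A B →
    ∀ (h : E) (S : Finset (Place k E)) (a b : Place k E → ι → k), h ≠ 0 → (∀ t, t ∈ S ↔ t.ord h ≠ 0) →
      (∀ t, IsLim t A B (a t) (b t)) → ∑ t ∈ S, t.ord h • line (a t) (b t) ∈ Rat F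

def T_DX : Prop :=
  ∀ (k : Type) [Field k] [IsAlgClosed k] [CharZero k] (ι E : Type) [Fintype ι] [Field E] [Algebra k E]
    [IsFF k E] (F : MvPolynomial ι k) (A B : ι → E), LinearIndependent E ![A, B] → Vanish F A B →
    ∃ (S : Finset (Place k E)) (n : Place k E → ℤ) (a b : Place k E → ι → k),
      (∀ t, IsLim t A B (a t) (b t)) ∧
      cyc k A - cyc k B + ∑ t ∈ S, n t • line (a t) (b t) ∈ Rat F

/-! ### SS: specialisation to the zeros and poles of a function -/

/-- A family of lines over the curve `E`; if all limits at the zeros of `τ` are equivalent to `c0` and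
all limits at the poles of `τ` are equivalent to `c1`, then `c0` and `c1` are equivalent
up to torsion. Use DE with `h = τ`, DEG and LOC. -/
def T_SS : Prop :=
  ∀ (k : Type) [Field k] [IsAlgClosed k] [CharZero k] (ι E : Type) [Fintype ι] [Field E] [Algebra k E]
    [IsFF k E] (F : MvPolynomial ι k) (A B : ι → E), LinearIndependent E ![A, B] → Vanish F A B →
    ∀ (τ : E), Transcendental k τ → ∀ (c0 c1 : Set (MvPolynomial ι k) →₀ ℤ),
      (∀ t : Place k E, 0 < t.ord τ → ∃ a b, IsLim t A B a b ∧ line a b - c0 ∈ Tor F) →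
      (∀ t : Place k E, t.ord τ < 0 → ∃ a b, IsLim t A B a b ∧ line a b - c1 ∈ Tor F) →
      c0 - c1 ∈ Tor F

/-! ### PT: the pencil trick -/

/-- the linear map with matrix `φ` -/
def lin {k κ ι : Type} [Field k] [Fintype κ] (φ : κ → ι → k) {K : Type} [Field K] [Algebra k K]
    (e : κ → K) : ι → K := fun i => ∑ j, e j * algebraMap k K (φ j i)

/-- A family of lines `⟨φ(e), u⟩` on `F = 0`, parametrized by the points `e` of the hypersurface
`G = 0`. If the class of `⟨φ(e), u⟩` is `c0` for all points `e` of `G = 0` on the line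
`⟨p0, q0⟩`, and `c1` for all points on the line `⟨p1, q1⟩`, then `c0` and `c1` are equivalent up to
torsion. -/
def T_PT : Prop :=
  ∀ (k : Type) [Field k] [IsAlgClosed k] [CharZero k] (ι κ : Type) [Fintype ι] [Fintype κ]
    (F : MvPolynomial ι k) (G : MvPolynomial κ k) (d : ℕ), 0 < d → G.IsHomogeneous d →
    ∀ (φ : κ → ι → k) (u : ι → k),
    (∀ (K : Type) [Field K] [Algebra k K] (e : κ → K) (s : K), aeval e G = 0 →
      aeval (fun i => lin φ e i + s * algebraMap k K (u i)) F = 0) →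
    (∀ (K : Type) [Field K] [Algebra k K] (e : κ → K), e ≠ 0 → aeval e G = 0 →
      LinearIndependent K ![lin φ e, fun i => algebraMap k K (u i)]) →
    ∀ (p0 q0 p1 q1 : κ → k), LinearIndependent k ![p0, q0] → LinearIndependent k ![p1, q1] →
    ∀ (c0 c1 : Set (MvPolynomial ι k) →₀ ℤ),
      (∀ e : κ → k, e ≠ 0 → e ∈ Submodule.span k {p0, q0} → eval e G = 0 →
        line (lin φ e) u - c0 ∈ Tor F) →
      (∀ e : κ → k, e ≠ 0 → e ∈ Submodule.span k {p1, q1} → eval e G = 0 →
        line (lin φ e) u - c1 ∈ Tor F) →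
      c0 - c1 ∈ Tor F

/-! ### PL: lines in a plane -/

/-- Two lines through `p` in a plane contained in `F = 0` are equivalent up to torsion: use SS with
`E = k(τ)` and the family `⟨p, q + τ r⟩`. -/
def T_PL : Prop :=
  ∀ (k : Type) [Field k] [IsAlgClosed k] [CharZero k] (ι : Type) [Fintype ι]
    (F : MvPolynomial ι k) (p q r : ι → k), LinearIndependent k ![p, q, r] →
    (∀ (K : Type) [Field K] [Algebra k K] (α β γ : K),
      aeval (fun i => α * algebraMap k K (p i) + β * algebraMap k K (q i) +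
        γ * algebraMap k K (r i)) F = 0) →
    line p q - line p r ∈ Tor F

/-! ### The hypersurface `f(x) + g(y) = 0` -/

/-- the form `f(x) + g(y)` -/
noncomputable def jn {k κ μ : Type} [Field k] (f : MvPolynomial κ k) (g : MvPolynomial μ k) :
    MvPolynomial (κ ⊕ μ) k := rename Sum.inl f + rename Sum.inr g

/-- TI: the lines `ℓ(z, y) = ⟨(z, 0), (0, y)⟩`, `f(z) = 0`, `g(y) = 0`, are equivalent up to torsion.
(`d + 1` variables `x` and `d` variables `y`.) -/
def T_TI : Prop :=
  ∀ (k : Type) [Field k] [IsAlgClosed k] [CharZero k] (κ μ : Type) [Fintype κ] [Fintype μ] (d : ℕ),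
    2 ≤ d → d + 1 ≤ Fintype.card κ → d ≤ Fintype.card μ →
    ∀ (f : MvPolynomial κ k) (g : MvPolynomial μ k), f.IsHomogeneous d → g.IsHomogeneous d →
    ∀ (z z' : κ → k) (y y' : μ → k), z ≠ 0 → z' ≠ 0 → y ≠ 0 → y' ≠ 0 → eval z f = 0 →
      eval z' f = 0 → eval y g = 0 → eval y' g = 0 →
      line (Sum.elim z 0) (Sum.elim 0 y) - line (Sum.elim z' 0) (Sum.elim 0 y') ∈ Tor (jn f g)

/-- TA: every line on `f(x) + g(y) = 0` through a point `(z, 0)` is equivalent up to torsion to a line
of the form `ℓ(z', y')`. -/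
def T_TA : Prop :=
  ∀ (k : Type) [Field k] [IsAlgClosed k] [CharZero k] (κ μ : Type) [Fintype κ] [Fintype μ] (d : ℕ),
    2 ≤ d → d + 1 ≤ Fintype.card κ → d ≤ Fintype.card μ →
    ∀ (f : MvPolynomial κ k) (g : MvPolynomial μ k), f.IsHomogeneous d → g.IsHomogeneous d →
    ∀ (z x : κ → k) (y : μ → k), LinearIndependent k ![Sum.elim z (0 : μ → k), Sum.elim x y] →
      (∀ α β : k, eval (fun i => α * Sum.elim z (0 : μ → k) i + β * Sum.elim x y i) (jn f g) = 0) →
      ∃ (z' : κ → k) (y' : μ → k), z' ≠ 0 ∧ y' ≠ 0 ∧ eval z' f = 0 ∧ eval y' g = 0 ∧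
        line (Sum.elim z 0) (Sum.elim x y) - line (Sum.elim z' 0) (Sum.elim 0 y') ∈ Tor (jn f g)

/-- TB: every curve is equivalent up to torsion to a sum of lines through points `(z, 0)` -/
def T_TB : Prop :=
  ∀ (k : Type) [Field k] [IsAlgClosed k] [CharZero k] (κ μ : Type) [Fintype κ] [Fintype μ] (d : ℕ),
    2 ≤ d → d + 1 ≤ Fintype.card κ → d ≤ Fintype.card μ →
    ∀ (f : MvPolynomial κ k) (g : MvPolynomial μ k), f.IsHomogeneous d → g.IsHomogeneous d →
    ∀ (E : Type) [Field E] [Algebra k E] [IsFF k E] (P : κ ⊕ μ → E), P ≠ 0 → aeval P (jn f g) = 0 →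
      ∃ (N : ℕ) (n : ℕ) (m : Fin n → ℤ) (z x : Fin n → κ → k) (y : Fin n → μ → k), 0 < N ∧
        (∀ j, LinearIndependent k ![Sum.elim (z j) (0 : μ → k), Sum.elim (x j) (y j)]) ∧
        (∀ j, ∀ α β : k, eval (fun i => α * Sum.elim (z j) (0 : μ → k) i +
          β * Sum.elim (x j) (y j) i) (jn f g) = 0) ∧
        N • cyc k P - ∑ j, m j • line (Sum.elim (z j) 0) (Sum.elim (x j) (y j)) ∈ Rat (jn f g)

/-! ### implications -/

def T_SSi : Prop := T_DE → T_LOC → T_DEG → T_SS
def T_PTi : Prop := T_SS → T_ROOT → T_SPEC → T_PT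
def T_PLi : Prop := T_SS → T_PL
def T_TIi : Prop := T_PT → T_PL → T_EXP → T_TI
def T_TAi : Prop := T_PT → T_PL → T_EXP → T_TA
def T_TBi : Prop := T_DX → T_CYC → T_EXP → T_LOC → T_LIM → T_SPEC → T_TB

end Pool.Agent.Z15.H.Stm
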