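import Pool.Agent.Z15.H.Stm

/-!
The place `σ = 0`; the ruled surface is a surface.
-/

set_option autoImplicit false
set_option linter.all false

open FF Polynomial Pool.Agent.Z15.H.Stm

namespace Pool.Agent.Z15.H

theorem isFF_simple {E M : Type} [Field E] [Field M] [Algebra E M] {σ : M}
    (hσ : Transcendental E σ) (hadj : IntermediateField.adjoin E {σ} = ⊤) : IsFF E M := by
  refine IsFF.of_finite hσ ?_
  rw [hadj]
  exact Module.Finite.of_surjective (Algebra.linearMap (⊤ : IntermediateField E M) M)
    fun x => ⟨⟨x, trivial⟩, rfl⟩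

theorem t_SURF : T_SURF := by
  intro k _ _ _ E M _ _ _ _ _ _ hE σ hσ hadj
  have hM := isFF_simple hσ hadj
  have h1 := hE.ess
  have h2 := hM.ess
  refine ⟨Algebra.EssFiniteType.comp k E M, ?_⟩
  rw [← trdeg_add_eq k E, hE.trdeg, hM.trdeg]
  exact one_add_one_eq_two

theorem t_TRIV : T_TRIV := by
  intro k _ _ _ E M _ _ _ _ _ _ hE σ hσ hadj
  have hM := isFF_simple hσ hadj
  have : CharZero E := charZero_of_injective_algebraMap (algebraMap k E).injective
  obtain ⟨S, hS, hdeg, hsum⟩ := FF.zeros (k := E) (K := M) hσ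
  have hfr : Module.finrank (IntermediateField.adjoin E {σ}) M = 1 := by
    rw [hadj]
    exact IntermediateField.finrank_top
  rw [hfr] at hsum
  have h1 : ∀ w ∈ S, 1 ≤ (w.ord σ).toNat * w.deg := by
    intro w hw
    have h2 := (hS w).1 hw
    have h3 := hdeg w hw
    have h4 : 0 < (w.ord σ).toNat := by omega
    exact Nat.mul_pos h4 h3
  have hcard : S.card ≤ 1 := by
    have h2 := Finset.card_nsmul_le_sum S _ 1 h1
    rw [hsum, smul_eq_mul, mul_one] at h2
    exact h2
  have hne : S.Nonempty := by
    rw [Finset.nonempty_iff_ne_empty]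
    rintro rfl
    simp at hsum
  have h5 : S.card = 1 := le_antisymm hcard (Finset.card_pos.2 hne)
  obtain ⟨w0, rfl⟩ := Finset.card_eq_one.1 h5
  rw [Finset.sum_singleton] at hsum
  have h6 := (hS w0).1 (Finset.mem_singleton_self w0)
  have h7 : (w0.ord σ).toNat = 1 := Nat.eq_one_of_mul_eq_one_right hsum
  have h8 : w0.deg = 1 := Nat.eq_one_of_mul_eq_one_left hsum
  let v : Place k M :=
    { ord := w0.ord
      ord_zero := w0.ord_zero
      ord_mul := w0.ord_mul
      ord_add := w0.ord_add
      ord_const := fun {c} hc => by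
        rw [IsScalarTower.algebraMap_apply k E M]
        exact w0.ord_const ((_root_.map_ne_zero _).2 hc)
      surj := w0.surj }
  refine ⟨v, fun x hx => w0.ord_const hx, ?_, ?_, ?_⟩
  · change w0.ord σ = 1
    omega
  · intro z
    obtain ⟨x, hx, rfl⟩ := v.red_surjective z
    have hx' : w0.Reg x := hx
    have h9 : Function.Surjective (algebraMap E w0.RF) := by
      intro y
      obtain ⟨c, hc⟩ := (finrank_eq_one_iff_of_nonzero' (1 : w0.RF) one_ne_zero).1 h8 y
      refine ⟨c, ?_⟩
      rw [← hc, Algebra.smul_def, mul_one]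
    obtain ⟨y, hy⟩ := h9 (w0.red x)
    refine ⟨y, ?_⟩
    have h10 : w0.red (x - algebraMap E M y) = 0 := by
      rw [w0.red_sub hx' (w0.reg_const y), ← hy]
      exact sub_self _
    have hyr : v.Reg (algebraMap E M y) := w0.reg_const y
    have h11 : w0.Reg (x - algebraMap E M y) := by
      rw [sub_eq_add_neg]
      exact w0.reg_add hx' (w0.reg_neg (w0.reg_const y))
    rw [w0.red_eq_zero_iff h11] at h10
    have h12 : v.Reg (x - algebraMap E M y) := h11
    have h13 : v.red (x - algebraMap E M y) = 0 := by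
      rw [v.red_eq_zero_iff h12]
      exact h10
    rw [v.red_sub hx hyr] at h13
    exact (sub_eq_zero.1 h13).symm
  · intro w hw hwσ
    let w' : Place E M :=
      { ord := w.ord
        ord_zero := w.ord_zero
        ord_mul := w.ord_mul
        ord_add := w.ord_add
        ord_const := fun {c} hc => hw c hc
        surj := w.surj }
    have h9 : w' = w0 := Finset.mem_singleton.1 ((hS w').2 hwσ)
    apply Place.ext
    change w'.ord = w0.ord
    rw [h9]

end Pool.Agent.Z15.H
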